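import Mathlib

open Filter Set Topology

universe u

namespace Pool.Agent.MPf6ebb1

/-- Every ultrafilter with the countable intersection property is principal. -/
def NM (D : Type u) : Prop :=
  ∀ U : Ultrafilter D, CountableInterFilter (U : Filter D) → ∃ d : D, U = pure d

theorem eq_pure_of_singleton_mem {α : Type u} {U : Ultrafilter α} {a : α}
    (h : ({a} : Set α) ∈ U) : U = pure a := by
  apply Ultrafilter.coe_le_coe.1
  rw [Ultrafilter.coe_pure, Filter.le_pure_iff]
  exact h

theorem NM.of_injective {α β : Type u} (hβ : NM β) (f : α → β) (hf : Function.Injective f) :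
    NM α := by
  intro U hU
  have h1 : CountableInterFilter ((U.map f : Ultrafilter β) : Filter β) := by
    rw [Ultrafilter.coe_map]; infer_instance
  obtain ⟨b, hb⟩ := hβ _ h1
  have h2 : ({b} : Set β) ∈ U.map f := by
    rw [hb]; exact Set.mem_singleton _
  rw [Ultrafilter.mem_map] at h2
  obtain ⟨a, ha⟩ := U.nonempty_of_mem h2
  refine ⟨a, eq_pure_of_singleton_mem ?_⟩
  refine Filter.mem_of_superset h2 ?_
  intro x hx
  have hx' : f x = b := hx
  have ha' : f a = b := ha
  exact hf (hx'.trans ha'.symm)

theorem NM.iInter_mem {α β : Type u} (hα : NM α) (U : Ultrafilter β)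
    (hU : CountableInterFilter (U : Filter β)) (A : α → Set β) (hA : ∀ a, A a ∈ U) :
    (⋂ a, A a) ∈ U := by
  classical
  by_contra hcon
  have hc : (⋂ a, A a)ᶜ ∈ U := Ultrafilter.compl_mem_iff_notMem.2 hcon
  obtain ⟨b0, hb0⟩ := U.nonempty_of_mem hc
  have hex : ∀ b : β, b ∈ (⋂ a, A a)ᶜ → ∃ a, b ∉ A a := by
    intro b hb
    simpa using hb
  obtain ⟨a0, -⟩ := hex b0 hb0
  let f : β → α := fun b => if h : ∃ a, b ∉ A a then h.choose else a0
  have h1 : CountableInterFilter ((U.map f : Ultrafilter α) : Filter α) := by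
    rw [Ultrafilter.coe_map]; infer_instance
  obtain ⟨a, ha⟩ := hα _ h1
  have h2 : ({a} : Set α) ∈ U.map f := by
    rw [ha]; exact Set.mem_singleton _
  rw [Ultrafilter.mem_map] at h2
  obtain ⟨b, ⟨hb1, hb2⟩, hb3⟩ := U.nonempty_of_mem (Filter.inter_mem (Filter.inter_mem h2 hc) (hA a))
  have hb4 := hex b hb2
  have hb5 : f b = a := hb1
  have hb6 : b ∉ A (f b) := by
    simp only [f, dif_pos hb4]
    exact hb4.choose_spec
  rw [hb5] at hb6
  exact hb6 hb3

theorem NM.set {α : Type u} (hα : NM α) : NM (Set α) := by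
  intro U hU
  refine ⟨{a | {s : Set α | a ∈ s} ∈ U}, eq_pure_of_singleton_mem ?_⟩
  have h1 : ∀ a : α, {s : Set α | a ∈ s ↔ {s : Set α | a ∈ s} ∈ U} ∈ U := by
    intro a
    by_cases h : {s : Set α | a ∈ s} ∈ U
    · refine Filter.mem_of_superset h ?_
      intro s hs
      exact ⟨fun _ => h, fun _ => hs⟩
    · have h' := Ultrafilter.compl_mem_iff_notMem.2 h
      refine Filter.mem_of_superset h' ?_
      intro s hs
      exact ⟨fun h'' => absurd h'' hs, fun h'' => absurd h'' h⟩
  refine Filter.mem_of_superset (hα.iInter_mem U hU _ h1) ?_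
  intro s hs
  have hs' : ∀ a, (a ∈ s ↔ {s : Set α | a ∈ s} ∈ U) := by
    intro a
    have := Set.mem_iInter.1 hs a
    exact this
  show s = _
  ext a
  exact hs' a

theorem NM.ultrafilter {α : Type u} (hα : NM α) (P : Ultrafilter α → Prop) :
    NM {U : Ultrafilter α // P U} := by
  refine (hα.set.set).of_injective (fun U => {s : Set α | s ∈ U.1}) ?_
  intro U V h
  apply Subtype.ext
  apply Ultrafilter.ext
  intro s
  have := congrArg (fun t : Set (Set α) => s ∈ t) h
  exact iff_of_eq this

theorem NM.of_countable {α : Type u} [Countable α] : NM α := by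
  intro U hU
  by_contra hcon
  push Not at hcon
  have h1 : ∀ a : α, ({a} : Set α)ᶜ ∈ (U : Filter α) := by
    intro a
    apply Ultrafilter.compl_mem_iff_notMem.2
    intro h
    exact hcon a (eq_pure_of_singleton_mem h)
  have h2 : (⋂ a : α, ({a} : Set α)ᶜ) ∈ (U : Filter α) := countable_iInter_mem.2 h1
  obtain ⟨a, ha⟩ := U.nonempty_of_mem h2
  exact (Set.mem_iInter.1 ha a) rfl

/-- On a set with no free countably complete ultrafilter every free proper filter has an
unbounded function to the natural numbers. -/
theorem NM.exists_unbounded {α : Type u} (hα : NM α) (g : Filter α) [g.NeBot]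
    (hg : ∀ a : α, ({a} : Set α)ᶜ ∈ g) : ∃ H : α → ℕ, ∀ m, ¬ ∀ᶠ a in g, H a < m := by
  classical
  by_contra hcon
  push Not at hcon
  have hq : (Ultrafilter.of g : Filter α) ≤ g := Ultrafilter.of_le g
  set q := Ultrafilter.of g with hqdef
  have hcomp : CountableInterFilter (q : Filter α) := by
    constructor
    intro S hS hSmem
    rcases S.eq_empty_or_nonempty with rfl | hne
    · simp
    obtain ⟨A, hA⟩ := hS.exists_eq_range hne
    have hAq : ∀ n, A n ∈ (q : Filter α) := by
      intro n
      apply hSmem
      rw [hA]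
      exact Set.mem_range_self n
    have hinter : ⋂₀ S = ⋂ n, A n := by
      rw [hA, Set.sInter_range]
    rw [hinter]
    by_contra hno
    have hc : (⋂ n, A n)ᶜ ∈ q := Ultrafilter.compl_mem_iff_notMem.2 hno
    let H : α → ℕ := fun a => if h : ∃ n, a ∉ A n then Nat.find h else 0
    obtain ⟨m, hm⟩ := hcon H
    have hm' : {a | H a < m} ∈ (q : Filter α) := hq hm
    have hfin : (⋂ n ∈ Finset.range m, A n) ∈ (q : Filter α) := by
      rw [Filter.biInter_finset_mem]
      intro n _
      exact hAq n
    obtain ⟨a, ⟨ha1, ha2⟩, ha3⟩ :=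
      q.nonempty_of_mem (Filter.inter_mem (Filter.inter_mem hc hm') hfin)
    have hex : ∃ n, a ∉ A n := by simpa using ha1
    have h1 : a ∉ A (H a) := by
      simp only [H, dif_pos hex]
      exact Nat.find_spec hex
    apply h1
    have := Set.mem_iInter₂.1 ha3 (H a) (Finset.mem_range.2 ha2)
    exact this
  obtain ⟨a, ha⟩ := hα q hcomp
  have h1 : ({a} : Set α)ᶜ ∈ (q : Filter α) := hq (hg a)
  rw [ha] at h1
  exact h1 rfl

/-- An ultrafilter on a level is good if it contains no countable set and some admissible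
function tends to infinity along it. -/
def Good {Y : Type u} (L : Set (Y → ℕ)) (U : Ultrafilter Y) : Prop :=
  (∀ C : Set Y, C.Countable → C ∉ U) ∧ ∃ h ∈ L, ∀ m : ℕ, {x | m ≤ h x} ∈ U

/-- The next level: points are good ultrafilters on the present one; a function is admissible
if it is bounded by the limit values of an admissible function of the present level. -/
def step (S : Σ Y : Type u, Set (Y → ℕ)) : Σ Y : Type u, Set (Y → ℕ) :=
  ⟨{U : Ultrafilter S.1 // Good S.2 U},
    {h | ∃ h' ∈ S.2, ∀ q, {x : S.1 | h q ≤ h' x} ∈ q.1}⟩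

/-- The levels. -/
def lev (D : Type u) : ℕ → Σ Y : Type u, Set (Y → ℕ)
  | 0 => ⟨D, Set.univ⟩
  | n + 1 => step (lev D n)

/-- Points of level `n`. -/
abbrev Y (D : Type u) (n : ℕ) : Type u := (lev D n).1

/-- Admissible functions on level `n`. -/
abbrev L (D : Type u) (n : ℕ) : Set (Y D n → ℕ) := (lev D n).2

/-- The ultrafilter on level `n` attached to a point of level `n + 1`. -/
def uf {D : Type u} {n : ℕ} (q : Y D (n + 1)) : Ultrafilter (Y D n) := q.1

theorem uf_good {D : Type u} {n : ℕ} (q : Y D (n + 1)) : Good (L D n) (uf q) := q.2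

/-- The point attached to a good ultrafilter. -/
def pt {D : Type u} {n : ℕ} (U : Ultrafilter (Y D n)) (hU : Good (L D n) U) : Y D (n + 1) :=
  ⟨U, hU⟩

theorem uf_pt {D : Type u} {n : ℕ} (U : Ultrafilter (Y D n)) (hU : Good (L D n) U) :
    uf (pt U hU) = U := rfl

theorem mem_L_zero {D : Type u} (h : Y D 0 → ℕ) : h ∈ L D 0 := Set.mem_univ _

theorem mem_L_succ {D : Type u} {n : ℕ} (h : Y D (n + 1) → ℕ) :
    h ∈ L D (n + 1) ↔ ∃ h' ∈ L D n, ∀ q : Y D (n + 1), {x : Y D n | h q ≤ h' x} ∈ uf q :=
  Iff.rfl

theorem nm_Y {D : Type u} (hD : NM D) : ∀ n, NM (Y D n)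
  | 0 => hD
  | n + 1 => (nm_Y hD n).ultrafilter _

theorem compl_mem_uf {D : Type u} {n : ℕ} (q : Y D (n + 1)) (C : Set (Y D n))
    (hC : C.Countable) : Cᶜ ∈ uf q :=
  Ultrafilter.compl_mem_iff_notMem.2 ((uf_good q).1 C hC)

/-- Every free proper filter on a level has an admissible unbounded function. -/
theorem exists_admissible {D : Type u} (hD : NM D) : ∀ (n : ℕ) (g : Filter (Y D n)) [g.NeBot],
    (∀ a : Y D n, ({a} : Set (Y D n))ᶜ ∈ g) → ∃ h ∈ L D n, ∀ m, ¬ ∀ᶠ a in g, h a < m := by
  intro n
  induction n with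
  | zero =>
    intro g _ hg
    obtain ⟨H, hH⟩ := NM.exists_unbounded (nm_Y hD 0) g hg
    exact ⟨H, mem_L_zero H, hH⟩
  | succ n ih =>
    intro g hne hg
    classical
    let g' : Filter (Y D n) := Filter.bind g (fun q => (uf q : Filter (Y D n)))
    have hmem' : ∀ s : Set (Y D n), s ∈ g' ↔ ∀ᶠ q in g, s ∈ (uf q : Filter (Y D n)) := by
      intro s
      exact Filter.mem_bind'
    have hne' : g'.NeBot := by
      refine ⟨fun h => ?_⟩
      have h0 : (∅ : Set (Y D n)) ∈ g' := by rw [h]; exact Filter.mem_bot
      rw [hmem'] at h0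
      obtain ⟨q, hq⟩ := h0.exists
      exact (uf q).empty_notMem hq
    have hg' : ∀ a : Y D n, ({a} : Set (Y D n))ᶜ ∈ g' := by
      intro a
      rw [hmem']
      exact Filter.Eventually.of_forall (fun q => compl_mem_uf q _ (Set.countable_singleton a))
    obtain ⟨h', hh'L, hh'⟩ := ih g' hg'
    have hbd : ∀ m, ¬ ∀ᶠ q in g, {x | h' x < m} ∈ (uf q : Filter (Y D n)) := by
      intro m hm
      exact hh' m ((hmem' _).2 hm)
    let B : Set (Y D (n + 1)) := {q | ∀ m, {x | m ≤ h' x} ∈ (uf q : Filter (Y D n))}
    by_cases hB : Bᶜ ∈ g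
    · -- bounded almost everywhere
      have hex : ∀ q : Y D (n + 1), q ∉ B → ∃ m, {x | h' x < m} ∈ (uf q : Filter (Y D n)) := by
        intro q hq
        have : ∃ m, {x | m ≤ h' x} ∉ (uf q : Filter (Y D n)) := by
          by_contra hall
          push Not at hall
          exact hq hall
        obtain ⟨m, hm⟩ := this
        refine ⟨m, ?_⟩
        have h2 := Ultrafilter.compl_mem_iff_notMem.2 hm
        refine Filter.mem_of_superset h2 ?_
        intro x hx
        have hx' : ¬ (m ≤ h' x) := hx
        exact not_le.1 hx'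
      let h : Y D (n + 1) → ℕ := fun q =>
        if hq : ∃ m, {x | h' x < m} ∈ (uf q : Filter (Y D n)) then Nat.find hq - 1 else 0
      refine ⟨h, ?_, ?_⟩
      · rw [mem_L_succ]
        refine ⟨h', hh'L, ?_⟩
        intro q
        by_cases hq : ∃ m, {x | h' x < m} ∈ (uf q : Filter (Y D n))
        · have hval : h q = Nat.find hq - 1 := by simp only [h, dif_pos hq]
          rw [hval]
          rcases Nat.eq_zero_or_pos (Nat.find hq) with h0 | h0
          · rw [h0]
            refine Filter.mem_of_superset Filter.univ_mem ?_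
            intro x _
            exact Nat.zero_le _
          · have hlt : Nat.find hq - 1 < Nat.find hq := Nat.sub_lt h0 one_pos
            have hnot := Nat.find_min hq hlt
            have h2 := Ultrafilter.compl_mem_iff_notMem.2 hnot
            refine Filter.mem_of_superset h2 ?_
            intro x hx
            have hx' : ¬ (h' x < Nat.find hq - 1) := hx
            exact not_lt.1 hx'
        · have hval : h q = 0 := by simp only [h, dif_neg hq]
          rw [hval]
          refine Filter.mem_of_superset Filter.univ_mem ?_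
          intro x _
          exact Nat.zero_le _
      · intro m hm
        apply hbd m
        filter_upwards [hm, hB] with q hq1 hq2
        have hq := hex q hq2
        have hval : h q = Nat.find hq - 1 := by simp only [h, dif_pos hq]
        rw [hval] at hq1
        refine Filter.mem_of_superset (Nat.find_spec hq) ?_
        intro x hx
        have hx' : h' x < Nat.find hq := hx
        show h' x < m
        omega
    · -- unbounded on a positive set
      have hne2 : (g ⊓ 𝓟 B).NeBot := by
        refine ⟨fun h => hB ?_⟩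
        have h0 : (∅ : Set (Y D (n + 1))) ∈ g ⊓ 𝓟 B := by rw [h]; exact Filter.mem_bot
        rw [Filter.mem_inf_principal] at h0
        refine Filter.mem_of_superset h0 ?_
        intro q hq hqB
        exact hq hqB
      have hfree2 : ∀ a : Y D (n + 1), ({a} : Set (Y D (n + 1)))ᶜ ∈ g ⊓ 𝓟 B := by
        intro a
        exact Filter.mem_inf_of_left (hg a)
      obtain ⟨H, hH⟩ := NM.exists_unbounded (nm_Y hD (n + 1)) (g ⊓ 𝓟 B) hfree2
      let h : Y D (n + 1) → ℕ := fun q => if q ∈ B then H q else 0
      refine ⟨h, ?_, ?_⟩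
      · rw [mem_L_succ]
        refine ⟨h', hh'L, ?_⟩
        intro q
        by_cases hq : q ∈ B
        · have hval : h q = H q := by simp only [h, if_pos hq]
          rw [hval]
          exact hq (H q)
        · have hval : h q = 0 := by simp only [h, if_neg hq]
          rw [hval]
          refine Filter.mem_of_superset Filter.univ_mem ?_
          intro x _
          exact Nat.zero_le _
      · intro m hm
        apply hH m
        rw [Filter.eventually_inf_principal]
        filter_upwards [hm] with q hq1 hq2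
        have hval : h q = H q := by simp only [h, if_pos hq2]
        rwa [hval] at hq1

/-- The space: the disjoint union of the levels. -/
def X (D : Type u) : Type u := Σ n : ℕ, Y D n

/-- The inclusion of a level. -/
def inc {D : Type u} (n : ℕ) (x : Y D n) : X D := ⟨n, x⟩

/-- A set is open if with every point of level `n + 1` it contains almost all points of level `n`
with respect to the ultrafilter attached to this point. -/
instance topX (D : Type u) : TopologicalSpace (X D) where
  IsOpen O := ∀ (n : ℕ) (q : Y D (n + 1)), inc (n + 1) q ∈ O → {x : Y D n | inc n x ∈ O} ∈ uf q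
  isOpen_univ := by
    intro n q _
    exact Filter.mem_of_superset Filter.univ_mem (fun x _ => Set.mem_univ _)
  isOpen_inter := by
    intro s t hs ht n q hq
    exact Filter.inter_mem (hs n q hq.1) (ht n q hq.2)
  isOpen_sUnion := by
    intro S hS n q hq
    obtain ⟨t, htS, ht⟩ := hq
    refine Filter.mem_of_superset (hS t htS n q ht) ?_
    intro x hx
    exact ⟨t, htS, hx⟩

theorem isOpen_iff {D : Type u} (O : Set (X D)) :
    IsOpen O ↔ ∀ (n : ℕ) (q : Y D (n + 1)), inc (n + 1) q ∈ O →
      {x : Y D n | inc n x ∈ O} ∈ uf q := Iff.rfl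

theorem inc_injective {D : Type u} (n : ℕ) : Function.Injective (inc (D := D) n) := by
  intro a b h
  have h' : (⟨n, a⟩ : Σ n : ℕ, Y D n) = ⟨n, b⟩ := h
  exact eq_of_heq (Sigma.mk.inj h').2

/-- Every countable set is closed. -/
theorem isClosed_of_countable {D : Type u} (C : Set (X D)) (hC : C.Countable) : IsClosed C := by
  rw [← isOpen_compl_iff, isOpen_iff]
  intro n q _
  have h1 : {x : Y D n | inc n x ∈ Cᶜ} = {x : Y D n | inc n x ∈ C}ᶜ := rfl
  rw [h1]
  apply compl_mem_uf
  exact hC.preimage_of_injOn (inc_injective n).injOn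

/-- Points of level `0` are isolated. -/
theorem isOpen_zero {D : Type u} (S : Set (Y D 0)) : IsOpen (inc 0 '' S) := by
  rw [isOpen_iff]
  intro n q hq
  obtain ⟨x, -, hx⟩ := hq
  have := congrArg Sigma.fst hx
  simp [inc] at this

/-- Open sets given by an admissible function. -/
theorem exists_open_family {D : Type u} : ∀ (n : ℕ) (h : Y D n → ℕ), h ∈ L D n →
    ∃ O : ℕ → Set (X D), (∀ m, IsOpen (O m)) ∧ (∀ m x, inc n x ∈ O m ↔ m ≤ h x) ∧
      (∀ m k x, n < k → inc k x ∉ O m) ∧ (⋂ m, O m) = ∅ := by
  intro n
  induction n with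
  | zero =>
    intro h _
    refine ⟨fun m => inc 0 '' {x | m ≤ h x}, fun m => isOpen_zero _, ?_, ?_, ?_⟩
    · intro m x
      constructor
      · rintro ⟨y, hy, hyx⟩
        rw [← inc_injective 0 hyx]
        exact hy
      · intro hx
        exact ⟨x, hx, rfl⟩
    · rintro m k x hk ⟨y, -, hyx⟩
      have := congrArg Sigma.fst hyx
      simp [inc] at this
      omega
    · rw [Set.eq_empty_iff_forall_notMem]
      intro z hz
      have hz0 := Set.mem_iInter.1 hz 0
      obtain ⟨y, -, rfl⟩ := hz0
      have hz1 := Set.mem_iInter.1 hz (h y + 1)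
      obtain ⟨y', hy', hyy⟩ := hz1
      rw [inc_injective 0 hyy] at hy'
      have : h y + 1 ≤ h y := hy'
      omega
  | succ n ih =>
    intro h hh
    rw [mem_L_succ] at hh
    obtain ⟨h', hh'L, hh'⟩ := hh
    obtain ⟨O, hO1, hO2, hO3, hO4⟩ := ih h' hh'L
    refine ⟨fun m => O m ∪ inc (n + 1) '' {q | m ≤ h q}, ?_, ?_, ?_, ?_⟩
    · intro m
      rw [isOpen_iff]
      intro k q hq
      rcases hq with hq | hq
      · refine Filter.mem_of_superset (hO1 m k q hq) ?_
        intro x hx
        exact Or.inl hx
      · obtain ⟨q', hq', hqq⟩ := hq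
        have hk : n + 1 = k + 1 := congrArg Sigma.fst hqq
        obtain rfl : n = k := by omega
        have := inc_injective (n + 1) hqq
        subst this
        refine Filter.mem_of_superset (hh' q') ?_
        intro x hx
        left
        rw [hO2]
        exact le_trans hq' hx
    · intro m x
      constructor
      · rintro (hx | ⟨y, hy, hyx⟩)
        · exact absurd hx (hO3 m (n + 1) x (Nat.lt_succ_self n))
        · rw [← inc_injective (n + 1) hyx]
          exact hy
      · intro hx
        exact Or.inr ⟨x, hx, rfl⟩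
    · rintro m k x hk (hx | ⟨y, -, hyx⟩)
      · exact hO3 m k x (by omega) hx
      · have hk' : n + 1 = k := congrArg Sigma.fst hyx
        omega
    · rw [Set.eq_empty_iff_forall_notMem]
      intro z hz
      by_cases hz' : ∃ q : Y D (n + 1), z = inc (n + 1) q
      · obtain ⟨q, rfl⟩ := hz'
        have hz1 := Set.mem_iInter.1 hz (h q + 1)
        rcases hz1 with hz1 | ⟨y, hy, hyq⟩
        · exact hO3 _ (n + 1) q (Nat.lt_succ_self n) hz1
        · rw [inc_injective (n + 1) hyq] at hy
          have : h q + 1 ≤ h q := hy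
          omega
      · have : z ∈ ⋂ m, O m := by
          rw [Set.mem_iInter]
          intro m
          rcases Set.mem_iInter.1 hz m with h1 | ⟨y, -, hy⟩
          · exact h1
          · exact absurd ⟨y, hy.symm⟩ hz'
        rw [hO4] at this
        exact this

theorem inc_ne {D : Type u} {n k : ℕ} (hnk : n ≠ k) (x : Y D n) (y : Y D k) :
    inc n x ≠ inc k y := by
  intro h
  exact hnk (congrArg Sigma.fst h)

/-- Every point is a `G_δ`. -/
theorem isGδ_singleton {D : Type u} (z : X D) : IsGδ ({z} : Set (X D)) := by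
  obtain ⟨n, x⟩ := z
  cases n with
  | zero =>
    have h := isOpen_zero (D := D) {x}
    rw [Set.image_singleton] at h
    exact h.isGδ
  | succ n =>
    obtain ⟨-, h, hL, hlim⟩ := uf_good x
    obtain ⟨O, hO1, hO2, hO3, hO4⟩ := exists_open_family n h hL
    have key : ({inc (n + 1) x} : Set (X D)) = ⋂ m, ({inc (n + 1) x} ∪ O m) := by
      rw [← Set.union_iInter, hO4, Set.union_empty]
    show IsGδ ({inc (n + 1) x} : Set (X D))
    rw [key]
    apply IsGδ.iInter_of_isOpen
    intro m
    rw [isOpen_iff]
    intro k q hq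
    rcases hq with hq | hq
    · have hk : k + 1 = n + 1 := congrArg Sigma.fst hq
      obtain rfl : k = n := by omega
      have := inc_injective (k + 1) hq
      subst this
      refine Filter.mem_of_superset (hlim m) ?_
      intro y hy
      right
      rw [hO2]
      exact hy
    · refine Filter.mem_of_superset (hO1 m k q hq) ?_
      intro y hy
      exact Or.inr hy

/-- The space is Lindelöf. -/
theorem lindelof {D : Type u} (hD : NM D) : LindelofSpace (X D) := by
  constructor
  intro f hf hfc _
  -- some level is positive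
  have hpos : ∃ n, (Filter.comap (inc (D := D) n) f).NeBot := by
    by_contra hcon
    push Not at hcon
    have h1 : ∀ n, (Set.range (inc (D := D) n))ᶜ ∈ f := by
      intro n
      have h2 : Filter.comap (inc (D := D) n) f = ⊥ := hcon n
      have h3 : (∅ : Set (Y D n)) ∈ Filter.comap (inc (D := D) n) f := by
        rw [h2]; exact Filter.mem_bot
      obtain ⟨t, ht, hts⟩ := h3
      refine Filter.mem_of_superset ht ?_
      rintro z hz ⟨x, rfl⟩
      exact hts (show x ∈ inc n ⁻¹' t from hz)
    have h4 : (⋂ n, (Set.range (inc (D := D) n))ᶜ) ∈ f := countable_iInter_mem.2 h1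
    have h5 : (⋂ n, (Set.range (inc (D := D) n))ᶜ) = ∅ := by
      rw [Set.eq_empty_iff_forall_notMem]
      rintro ⟨n, x⟩ hz
      exact (Set.mem_iInter.1 hz n) ⟨x, rfl⟩
    rw [h5] at h4
    exact Filter.empty_notMem f h4
  obtain ⟨n, hn⟩ := hpos
  set g := Filter.comap (inc (D := D) n) f with hgdef
  by_cases hfree : ∀ a : Y D n, ({a} : Set (Y D n))ᶜ ∈ g
  · obtain ⟨h, hL, hh⟩ := exists_admissible hD n g hfree
    let k : Filter (Y D n) := g ⊓ ⨅ m, 𝓟 {x | m ≤ h x}
    have hk : k.NeBot := by
      have hdir : Directed (fun a b : Filter (Y D n) => a ≥ b)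
          (fun m : ℕ => 𝓟 {x : Y D n | m ≤ h x}) := by
        intro a b
        refine ⟨max a b, ?_, ?_⟩
        · show 𝓟 _ ≥ 𝓟 _
          rw [ge_iff_le, Filter.principal_mono]
          intro x hx
          have hx' : max a b ≤ h x := hx
          exact le_trans (le_max_left a b) hx'
        · show 𝓟 _ ≥ 𝓟 _
          rw [ge_iff_le, Filter.principal_mono]
          intro x hx
          have hx' : max a b ≤ h x := hx
          exact le_trans (le_max_right a b) hx'
      refine ⟨fun h0 => ?_⟩
      have h1 : (∅ : Set (Y D n)) ∈ k := by rw [h0]; exact Filter.mem_bot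
      obtain ⟨s, hs, t, ht, hst⟩ := Filter.mem_inf_iff.1 h1
      rw [Filter.mem_iInf_of_directed hdir] at ht
      obtain ⟨m, hm⟩ := ht
      rw [Filter.mem_principal] at hm
      apply hh m
      filter_upwards [hs] with x hx
      by_contra hlt
      have : x ∈ (∅ : Set (Y D n)) := by
        rw [hst]
        exact ⟨hx, hm (not_lt.1 hlt)⟩
      exact this
    let V : Ultrafilter (Y D n) := Ultrafilter.of k
    have hV : (V : Filter (Y D n)) ≤ k := Ultrafilter.of_le k
    have hVg : (V : Filter (Y D n)) ≤ g := hV.trans inf_le_left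
    have hgc : CountableInterFilter g := by
      rw [hgdef]; infer_instance
    have hgood : Good (L D n) V := by
      refine ⟨?_, h, hL, ?_⟩
      · intro C hC hCV
        have h1 : Cᶜ ∈ g := by
          have h2 : Cᶜ = ⋂ a ∈ C, ({a} : Set (Y D n))ᶜ := by
            ext x
            simp only [Set.mem_compl_iff, Set.mem_iInter, Set.mem_singleton_iff]
            constructor
            · intro hx a ha hxa
              exact hx (hxa ▸ ha)
            · intro hx hxC
              exact hx x hxC rfl
          rw [h2, countable_bInter_mem hC]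
          intro a _
          exact hfree a
        have h3 : Cᶜ ∈ (V : Filter (Y D n)) := hVg h1
        exact (Ultrafilter.compl_mem_iff_notMem.1 h3) hCV
      · intro m
        apply hV
        apply Filter.mem_inf_of_right
        exact Filter.mem_iInf_of_mem m (Filter.mem_principal_self _)
    refine ⟨inc (n + 1) (pt V hgood), Set.mem_univ _, ?_⟩
    rw [clusterPt_iff_nonempty]
    intro O hO F hF
    obtain ⟨O', hO'O, hO'open, hO'mem⟩ := mem_nhds_iff.1 hO
    have h1 : {x : Y D n | inc n x ∈ O'} ∈ (V : Filter (Y D n)) := hO'open n (pt V hgood) hO'mem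
    have h2 : {x : Y D n | inc n x ∈ F} ∈ (V : Filter (Y D n)) := hVg ⟨F, hF, fun x hx => hx⟩
    obtain ⟨x, hx1, hx2⟩ := V.nonempty_of_mem (Filter.inter_mem h1 h2)
    exact ⟨inc n x, hO'O hx1, hx2⟩
  · push Not at hfree
    obtain ⟨a, ha⟩ := hfree
    refine ⟨inc n a, Set.mem_univ _, ?_⟩
    rw [clusterPt_iff_nonempty]
    intro O hO F hF
    refine ⟨inc n a, mem_of_mem_nhds hO, ?_⟩
    by_contra hno
    apply ha
    refine ⟨F, hF, ?_⟩
    intro x hx hxa
    have hxa' : x = a := hxa
    subst hxa'
    exact hno hx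

/-- Each nonempty subset has a relatively isolated point. -/
theorem scattered {D : Type u} (S : Set (X D)) (hS : S.Nonempty) :
    ∃ x ∈ S, ∃ O : Set (X D), IsOpen O ∧ O ∩ S = {x} := by
  classical
  have hex : ∃ n, ∃ y : Y D n, inc n y ∈ S := by
    obtain ⟨⟨n, y⟩, hy⟩ := hS
    exact ⟨n, y, hy⟩
  obtain ⟨n, ⟨y, hy⟩, hmin⟩ : ∃ n, (∃ y : Y D n, inc n y ∈ S) ∧
      ∀ k < n, ¬ ∃ y : Y D k, inc k y ∈ S :=
    ⟨Nat.find hex, Nat.find_spec hex, fun k hk => Nat.find_min hex hk⟩
  refine ⟨inc n y, hy, {z | z.1 < n} ∪ {inc n y}, ?_, ?_⟩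
  · rw [isOpen_iff]
    intro k q hq
    have hall : ∀ x : Y D k, inc k x ∈ ({z | z.1 < n} ∪ {inc n y} : Set (X D)) := by
      intro x
      left
      rcases hq with hq | hq
      · have : k + 1 < n := hq
        show k < n
        omega
      · have : k + 1 = n := congrArg Sigma.fst hq
        show k < n
        omega
    refine Filter.mem_of_superset Filter.univ_mem ?_
    intro x _
    exact hall x
  · ext z
    constructor
    · rintro ⟨hz | hz, hzS⟩
      · exfalso
        obtain ⟨k, x⟩ := z
        exact hmin k hz ⟨x, hzS⟩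
      · exact hz
    · intro hz
      have hz' : z = inc n y := hz
      subst hz'
      exact ⟨Or.inr rfl, hy⟩

/-- The isolated points are dense. -/
theorem dense_zero {D : Type u} : Dense (Set.range (inc (D := D) 0)) := by
  rw [dense_iff_inter_open]
  intro O hO hne
  obtain ⟨⟨n, x⟩, hx⟩ := hne
  have key : ∀ n (x : Y D n), inc n x ∈ O → ∃ y : Y D 0, inc 0 y ∈ O := by
    intro n
    induction n with
    | zero => intro x hx; exact ⟨x, hx⟩
    | succ n ih =>
      intro x hx
      obtain ⟨y, hy⟩ := (uf x).nonempty_of_mem (hO n x hx)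
      exact ih y hy
  obtain ⟨y, hy⟩ := key n x hx
  exact ⟨inc 0 y, hy, ⟨y, rfl⟩⟩

/-- If all countable sets are closed then compact sets are finite. -/
theorem finite_of_isCompact {X : Type u} [TopologicalSpace X]
    (h : ∀ C : Set X, C.Countable → IsClosed C) (K : Set X) (hK : IsCompact K) : K.Finite := by
  by_contra hinf
  have hinf' : K.Infinite := hinf
  let f := hinf'.natEmbedding
  let C : Set X := Set.range (fun n => (f n : X))
  have hCK : C ⊆ K := by
    rintro x ⟨n, rfl⟩
    exact (f n).2
  have hCc : C.Countable := Set.countable_range _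
  have hCcomp : IsCompact C := hK.of_isClosed_subset (h C hCc) hCK
  have hCinf : C.Infinite := by
    apply Set.infinite_range_of_injective
    intro a b hab
    exact f.injective (Subtype.ext hab)
  have : DiscreteTopology C := by
    rw [discreteTopology_iff_forall_isClosed]
    intro S
    have h1 : IsClosed (Subtype.val '' S : Set X) :=
      h _ (hCc.mono (by rintro x ⟨y, -, rfl⟩; exact y.2))
    have h2 := h1.preimage (continuous_subtype_val (p := fun x => x ∈ C))
    rwa [Set.preimage_image_eq _ Subtype.val_injective] at h2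
  exact hCinf (hCcomp.finite (isDiscrete_iff_discreteTopology.2 inferInstance))

/-- Arhangel'skii: a Lindelöf space with `G_δ` points has no free countably complete
ultrafilter. -/
theorem nm_of_lindelof {X : Type u} [TopologicalSpace X] [LindelofSpace X]
    (h : ∀ x : X, IsGδ ({x} : Set X)) : NM X := by
  intro U hU
  obtain ⟨x, -, hx⟩ := (isLindelof_univ (X := X)) (f := (U : Filter X)) (by simp)
  have hUx : (U : Filter X) ≤ 𝓝 x := by
    rwa [Ultrafilter.clusterPt_iff] at hx
  refine ⟨x, eq_pure_of_singleton_mem ?_⟩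
  obtain ⟨T, hTo, hTc, hT⟩ := h x
  have : ⋂₀ T ∈ (U : Filter X) := by
    rw [countable_sInter_mem hTc]
    intro t ht
    apply hUx
    apply (hTo t ht).mem_nhds
    have hx1 : x ∈ ⋂₀ T := by rw [← hT]; exact Set.mem_singleton x
    exact hx1 t ht
  rw [← hT] at this
  exact this

end Pool.Agent.MPf6ebb1
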